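import Mathlib
import Pool.Agent.J6H58.D4.Win

/-!
# Four primes among 1383148 consecutive odd integers

For all large `x`, at least `x / (log x) ^ C` of the odd integers `n ≤ x` have at least four primes among the
`1383148` consecutive odd integers `n, n + 2, …, n + 2766294` (the question asks for four primes among five
consecutive odd integers). More precisely, every set of at least `196609` shifts which misses a residue class modulo
every prime contains at least four shifts `P` such that the primes near `n` are exactly the numbers `n + y`,
`y ∈ P`.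

The bound in the starting files is `290687` shifts and the length `4209616` (from the level of distribution `1/2`);
the best bound in the literature is `24407016`. Here the sieve weight is supported on tuples with many small
coordinates, for which the pair sums are evaluated with primes beyond the level `1/2`; the main sums are evaluated
by a certificate which the kernel checks (polynomials with 4.8 million coefficients).
-/

set_option autoImplicit false

open Filter Finset

namespace Pool.Agent.Results.MP_fc51f7_nt.FourPrimesInAWindow

/-- There is an absolute constant `C` such that: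

(1) for every set `S` of at least 196609 integers which misses a residue class modulo every prime, all `R` and
all large `x`, for at least `x / (log x) ^ C` of the integers `0 ≤ n ≤ x` there is a `P ⊆ S` with at least four
elements such that for all `y` with `|y| ≤ R` or `y ∈ S` the number `n + y` is prime if and only if `y ∈ P`;

(2) for all large `x`, for at least `x / (log x) ^ C` of the odd integers `1 ≤ n ≤ x` at least four of the 1383148
consecutive odd integers `n, n + 2, …, n + 2766294` are prime. -/
theorem result : ∃ C : ℕ,
    (∀ S : Finset ℤ, 196609 ≤ S.card → (∀ p : ℕ, p.Prime → ∃ r : ℤ, ∀ s ∈ S, ¬ (p : ℤ) ∣ r + s) →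
      ∀ R : ℕ, ∀ᶠ x : ℝ in atTop, x / Real.log x ^ C ≤
        (Set.ncard {n : ℕ | (n : ℝ) ≤ x ∧ ∃ P : Finset ℤ, P ⊆ S ∧ 4 ≤ P.card ∧
          ∀ y : ℤ, |y| ≤ R ∨ y ∈ S → ((∃ p : ℕ, p.Prime ∧ (p : ℤ) = n + y) ↔ y ∈ P)} : ℝ)) ∧
    ∀ᶠ x : ℝ in atTop, x / Real.log x ^ C ≤ (Set.ncard {n : ℕ | (n : ℝ) ≤ x ∧ Odd n ∧
      4 ≤ ((range 1383148).filter fun k => (n + 2 * k).Prime).card} : ℝ) := by
  refine ⟨Pool.Agent.J6H58.D3.CC 196609 + 4, fun S hS hadm R => ?_, Pool.Agent.J6H58.D4.window⟩
  filter_upwards [(Pool.Agent.J6H58.D3.exact_shifts Pool.Agent.J6H58.D4.lh196609 S hS hadm 1 0 one_pos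
    (fun s _ => isCoprime_one_right)).1 R] with x hx
  refine hx.trans (Nat.cast_le.2 (Set.ncard_le_ncard ?_ ?_))
  · rintro n ⟨h1, -, h2⟩
    exact ⟨h1, h2⟩
  · apply (Set.finite_Iic ⌊x⌋₊).subset
    rintro n ⟨hn, -⟩
    exact Nat.le_floor hn

end Pool.Agent.Results.MP_fc51f7_nt.FourPrimesInAWindow
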