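import Mathlib
import Pool.Agent.J6H13.UM.Quad

set_option autoImplicit false

/-!
# Five consecutive odd integers containing four primes: sequential random models of the primes

The question is whether there are infinitely many odd `n` for which four of `n, n + 2, n + 4, n + 6, n + 8` are prime
(which are `n, n + 2, n + 6, n + 8` for `n > 3`).  We consider random models of the primes with a growing sieve:
the integers are decided one after the other; no `m` with a prime factor `q ∈ P`, `q ≤ z(m)`, is chosen;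
the conditional probability of choosing `m + 1` (without such prime factors) given the past is asymptotic
to `W / log m`, `W = ∏ (1 - 1/q)⁻¹` over the primes `q ∈ P`, `q ≤ z(m + 1)`.  Here `P` is any set of primes.
No independence and no rate is assumed.

(1) For every `ε > 0` there is `δ > 0` such that in all models with `z(m) ≤ m ^ δ` almost surely all intervals
`(X, X + N]`, `X ^ ε ≤ N ≤ X`, `X` large, contain at least `N / X ^ ε` odd `n` such that `n, n + 2, n + 6, n + 8` are chosen.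
(2) In models with `z(m) ≤ (log m) ^ C` the same holds with `(log X) ^ D` instead of `X ^ ε`.

The proof combines the law of large numbers for families of hypergraphs of the starting project `Pool.Agent.R960.Fam`
(which is uniform in polynomially many families), and the fundamental lemma of the sieve, uniform in all systems
(`Pool.Agent.TH882.FL`).
-/

open MeasureTheory Filter
open scoped Topology

namespace Pool.Agent.Results.MP_fc51f7_nt.GrowingSieveModels

/-- `m` has no prime factor `q ∈ P`, `q ≤ z m` -/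
def Rough (P : Set ℕ) (z : ℕ → ℕ) (m : ℕ) : Prop := ∀ q ∈ P, q.Prime → q ≤ z m → ¬ q ∣ m

open Classical in
/-- `∏ (1 - 1/q)⁻¹` over the primes `q ≤ x` in `P` -/
noncomputable def W (P : Set ℕ) (x : ℕ) : ℝ :=
  ∏ q ∈ (Finset.Icc 1 x).filter (fun q => q.Prime ∧ q ∈ P), (1 - (q : ℝ)⁻¹)⁻¹

/-- a sequential random model of the primes sieved by the primes `q ∈ P`, `q ≤ z(m)` -/
structure IsModel {Ω : Type} [mΩ : MeasurableSpace Ω] (μ : Measure Ω) (ℱ : Filtration ℕ mΩ)
    (S : ℕ → Set Ω) (P : Set ℕ) (z : ℕ → ℕ) : Prop where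
  /-- whether `n` is chosen is known at the time `n` -/
  adapted : ∀ n, MeasurableSet[ℱ n] (S n)
  /-- no `n` with a prime factor `q ∈ P`, `q ≤ z n`, is chosen -/
  sieved : ∀ n, ¬ Rough P z n → S n = ∅
  /-- the conditional probability of `S (n + 1)` given `ℱ n` is asymptotic to `W P (z (n + 1)) / log n`
  along the `n` with `Rough P z (n + 1)` -/
  density : ∀ᵐ ω ∂μ, Tendsto (fun n : ℕ =>
    (μ[(S (n + 1)).indicator (fun _ => (1 : ℝ)) | ℱ n]) ω * Real.log n / W P (z (n + 1)))
    (atTop ⊓ 𝓟 {n : ℕ | Rough P z (n + 1)}) (𝓝 1)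

/-- the odd `n` in `(X, X + N]` for which `n, n + 2, n + 6, n + 8` belong to `S` -/
def Quad (S : Set ℕ) (X N : ℕ) : Set ℕ :=
  {n : ℕ | X < n ∧ n ≤ X + N ∧ Odd n ∧ n ∈ S ∧ n + 2 ∈ S ∧ n + 6 ∈ S ∧ n + 8 ∈ S}

/-- Almost surely all short intervals contain many odd `n` for which `n, n + 2, n + 6, n + 8` are chosen. -/
theorem result :
    (∀ ε : ℝ, 0 < ε → ∃ δ : ℝ, 0 < δ ∧ ∀ (P : Set ℕ) (z : ℕ → ℕ),
      (∀ᶠ n : ℕ in atTop, (z n : ℝ) ≤ (n : ℝ) ^ δ) →
      ∀ {Ω : Type} [mΩ : MeasurableSpace Ω] (μ : Measure Ω) [IsProbabilityMeasure μ]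
        (ℱ : Filtration ℕ mΩ) (S : ℕ → Set Ω), IsModel μ ℱ S P z →
        ∀ᵐ ω ∂μ, ∀ᶠ X : ℕ in atTop, ∀ N : ℕ, N ≤ X → (X : ℝ) ^ ε ≤ N →
          (N : ℝ) / (X : ℝ) ^ ε ≤ ((Quad {k | ω ∈ S k} X N).ncard : ℝ)) ∧
    (∀ C : ℕ, ∃ D : ℕ, ∀ (P : Set ℕ) (z : ℕ → ℕ),
      (∀ᶠ n : ℕ in atTop, (z n : ℝ) ≤ Real.log n ^ C) →
      ∀ {Ω : Type} [mΩ : MeasurableSpace Ω] (μ : Measure Ω) [IsProbabilityMeasure μ]
        (ℱ : Filtration ℕ mΩ) (S : ℕ → Set Ω), IsModel μ ℱ S P z →
        ∀ᵐ ω ∂μ, ∀ᶠ X : ℕ in atTop, ∀ N : ℕ, N ≤ X → Real.log X ^ D ≤ N →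
          (N : ℝ) / Real.log X ^ D ≤ ((Quad {k | ω ∈ S k} X N).ncard : ℝ)) := by
  constructor
  · intro ε hε
    obtain ⟨δ, hδ, h⟩ := Pool.Agent.J6H13.UM.pow_all (ε / 2) (by positivity) 4
    refine ⟨δ, hδ, ?_⟩
    intro P z hz Ω mΩ μ _ ℱ S hM
    have h1 : Tendsto (fun X : ℕ => (X : ℝ) ^ (ε / 2)) atTop atTop :=
      (tendsto_rpow_atTop (by positivity)).comp tendsto_natCast_atTop_atTop
    filter_upwards [h P z hz ⟨hM.adapted, hM.sieved, hM.density⟩] with ω hω
    refine Pool.Agent.J6H13.UM.quad_short P (fun x : ℕ => (x : ℝ) ^ (ε / 2)) (fun x : ℕ => (x : ℝ) ^ ε) S ω ?_ ?_ ?_ hω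
    · filter_upwards with X
      positivity
    · filter_upwards [h1.eventually_ge_atTop (4 * (11 : ℝ) ^ (ε / 2)), eventually_ge_atTop 1] with X h2 h3
      have hX1 : (1 : ℝ) ≤ X := by exact_mod_cast h3
      have e1 : ((2 * X + 9 : ℕ) : ℝ) ^ (ε / 2) ≤ (11 : ℝ) ^ (ε / 2) * (X : ℝ) ^ (ε / 2) := by
        rw [← Real.mul_rpow (by norm_num) (by linarith)]
        apply Real.rpow_le_rpow (by positivity) _ (by positivity)
        push_cast
        linarith
      have e2 : (X : ℝ) ^ ε = (X : ℝ) ^ (ε / 2) * (X : ℝ) ^ (ε / 2) := by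
        rw [← Real.rpow_add (by linarith)]
        congr 1
        ring
      rw [e2]
      have e3 : 0 ≤ (X : ℝ) ^ (ε / 2) := by positivity
      nlinarith
    · exact ((tendsto_rpow_atTop hε).comp tendsto_natCast_atTop_atTop).eventually_ge_atTop 8
  · intro C
    obtain ⟨D, h⟩ := Pool.Agent.J6H13.UM.log_all C 4
    refine ⟨D + 1, ?_⟩
    intro P z hz Ω mΩ μ _ ℱ S hM
    filter_upwards [h P z hz ⟨hM.adapted, hM.sieved, hM.density⟩] with ω hω
    refine Pool.Agent.J6H13.UM.quad_short P (fun x : ℕ => Real.log x ^ D) (fun x : ℕ => Real.log x ^ (D + 1)) S ω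
      ?_ ?_ ?_ hω
    · filter_upwards with X
      have : 0 < Real.log ((2 * X + 9 : ℕ) : ℝ) := Real.log_pos (by push_cast; have : (0 : ℝ) ≤ X := Nat.cast_nonneg X
                                                                    linarith)
      positivity
    · filter_upwards [Pool.Agent.J6H13.UM.logN.eventually_ge_atTop (4 * 2 ^ D), eventually_ge_atTop 11] with X h2 h3
      have hX1 : (11 : ℝ) ≤ X := by exact_mod_cast h3
      have e1 : Real.log ((2 * X + 9 : ℕ) : ℝ) ≤ 2 * Real.log X := by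
        have e2 : Real.log (((X : ℝ)) ^ 2) = 2 * Real.log X := by
          rw [Real.log_pow]
          norm_num
        rw [← e2]
        apply Real.log_le_log (by positivity)
        push_cast
        nlinarith
      have e3 : 0 ≤ Real.log ((2 * X + 9 : ℕ) : ℝ) := Real.log_natCast_nonneg _
      have e4 : Real.log ((2 * X + 9 : ℕ) : ℝ) ^ D ≤ 2 ^ D * Real.log X ^ D := by
        rw [← mul_pow]
        exact pow_le_pow_left₀ e3 e1 D
      have e5 : 0 ≤ Real.log (X : ℝ) ^ D := pow_nonneg (Real.log_natCast_nonneg X) D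
      show 4 * Real.log ((2 * X + 9 : ℕ) : ℝ) ^ D ≤ Real.log X ^ (D + 1)
      rw [pow_succ]
      nlinarith
    · filter_upwards [Pool.Agent.J6H13.UM.logN.eventually_ge_atTop 8] with X h2
      calc (8 : ℝ) ≤ Real.log X := h2
        _ ≤ Real.log X ^ (D + 1) := le_self_pow₀ (by linarith) (by omega)

end Pool.Agent.Results.MP_fc51f7_nt.GrowingSieveModels
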