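import Pool.Agent.J6H52.JumpT.Poly

/-!
# A jump inequality for prime quadruples in all short intervals

Five consecutive odd integers `m, m + 2, m + 4, m + 6, m + 8` with `m ≠ 3` contain four primes if and
only if `m, m + 2, m + 6, m + 8` are primes. A *rough quadruple* is a number `m` such that none of
`m, m + 2, m + 6, m + 8` has a prime factor `≤ m ^ (1 / r)`. For a set `A` of rough quadruples let
`R(m, y) = #(A ∩ (m, m + y]) / (y / log ^ 4 m)` be its density, in the natural units, in the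
interval of length `y` behind `m`.

For `0 < θ ≤ 1` and all large `r` there is `C` such that for all large `X`, all `H` with
`X ^ θ ≤ H ≤ X / 2`, EVERY set `A` of rough quadruples (for instance all `m` for which four of the
five odd integers are prime) and all `ε > 0` the average, over the integers `m` in `(X, X + H]`, of
the number of `ε`-jumps of the function `y ↦ R(m, y)` on the WHOLE range from `log ^ 4 X` to `H` is
at most `C / ε ^ 2`. So for almost all `m` the density of the good sets near `m` changes by more than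
`ε` only boundedly often over all scales.

Proof (files `Pool/Agent/J6H52/Jump` and `Pool/Agent/J6H52/JumpT`): the jump inequality for the
averages over `[n, n + y)` of a nonnegative function on the integers in terms of its `L²` norm after
averaging over dyadic intervals of length about `log ^ 4`; this norm is bounded by the sieve, via
the second moment of the number of rough quadruples in intervals of the length `log ^ 4`, which is
in the starting files.
-/

set_option autoImplicit false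

open Filter Finset

namespace Pool.Agent.Results.MP_fc51f7_nt.JumpInequality

/-- none of `m`, `m + 2`, `m + 6`, `m + 8` has a prime factor `p ≤ m ^ (1 / r)` -/
def RoughQuadruple (r m : ℕ) : Prop :=
  ∀ p : ℕ, p.Prime → p ∣ m ∨ p ∣ m + 2 ∨ p ∣ m + 6 ∨ p ∣ m + 8 →
    (m : ℝ) ^ (1 / (r : ℝ)) < (p : ℝ)

open Classical in
/-- the number of elements of `A` in `(a, b]` -/
noncomputable def cnt (A : Set ℕ) (a b : ℕ) : ℕ := ((Ioc a b).filter (fun m => m ∈ A)).card

/-- the density of `A` in `(m, m + y]`, in units of `1 / log ^ 4 m` -/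
noncomputable def R (A : Set ℕ) (m : ℕ) (y : ℝ) : ℝ :=
  (cnt A m (m + ⌊y⌋₊) : ℝ) / (y / Real.log m ^ 4)

/-- `F` has (at least) `J` jumps larger than `ε` on `[a, b]`: there are
`a ≤ s 0 < t 0 ≤ s 1 < t 1 ≤ ... ≤ s (J - 1) < t (J - 1) ≤ b` with `|F (t i) - F (s i)| > ε`. -/
def Jumps (F : ℝ → ℝ) (ε a b : ℝ) (J : ℕ) : Prop :=
  ∃ s t : ℕ → ℝ, (∀ i < J, a ≤ s i ∧ s i < t i ∧ t i ≤ b ∧ ε < |F (t i) - F (s i)|) ∧
    ∀ i, i + 1 < J → t i ≤ s (i + 1)

open Classical in
/-- the integers in `(X, X + H]` for which the density of `A` takes two values with a difference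
larger than `ε` at lengths between `S` and `T` -/
noncomputable def unstable (A : Set ℕ) (X H : ℕ) (ε S T : ℝ) : Finset ℕ :=
  (Ioc X (X + H)).filter (fun m : ℕ =>
    ∃ y y' : ℝ, S ≤ y ∧ y ≤ y' ∧ y' ≤ T ∧ ε < |R A m y' - R A m y|)

/-- there is no local obstruction -/
lemma adm (p : ℕ) (hp : p.Prime) : ∃ m : ℕ, ∀ i : Fin 4, ¬ p ∣ m + ![0, 2, 6, 8] i := by
  -- `m = 5` works for `p ∉ {5, 7, 11, 13}`, `m = 11` for `p ∉ {11, 13, 17, 19}`
  by_cases h1 : p = 5 ∨ p = 7
  · refine ⟨11, fun i => ?_⟩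
    rcases h1 with rfl | rfl <;> fin_cases i <;> simp
  · by_cases h2 : p = 11 ∨ p = 13
    · refine ⟨101, fun i => ?_⟩
      rcases h2 with rfl | rfl <;> fin_cases i <;> simp
    · refine ⟨5, fun i hd => ?_⟩
      push Not at h1 h2
      fin_cases i
      · have hd' : p ∣ 5 := by simpa using hd
        exact h1.1 ((Nat.prime_dvd_prime_iff_eq hp (by norm_num)).1 hd')
      · have hd' : p ∣ 7 := by simpa using hd
        exact h1.2 ((Nat.prime_dvd_prime_iff_eq hp (by norm_num)).1 hd')
      · have hd' : p ∣ 11 := by simpa using hd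
        exact h2.1 ((Nat.prime_dvd_prime_iff_eq hp (by norm_num)).1 hd')
      · have hd' : p ∣ 13 := by simpa using hd
        exact h2.2 ((Nat.prime_dvd_prime_iff_eq hp (by norm_num)).1 hd')

/-- **A jump inequality for prime quadruples in short intervals**: for `0 < θ ≤ 1` and all large `r`
there is `C` such that for all large `X`, all `H` with `X ^ θ ≤ H ≤ X / 2`, all sets `A` of rough
quadruples and all `ε > 0`:
(1) if for every integer `m` in `(X, X + H]` the function `y ↦ R(m, y)` has `J(m)` jumps larger than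
`ε` on `[log ^ 4 X, H]`, then the sum of the `J(m)` is at most `C H / ε ^ 2`;
(2) for any lengths `log ^ 4 X ≤ T 0 ≤ T 1 ≤ ... ≤ T s ≤ H` the numbers of the `m` for which
`R(m, y)` takes two values with difference larger than `ε` for `y` between `T i` and `T (i + 1)`
have sum over `i < s` at most `C H / ε ^ 2`;
(3) so for `δ > 0` the proportion of these `m` exceeds `δ` for at most `C / (δ ε ^ 2)` of the `i`. -/
theorem result (θ : ℝ) (hθ : 0 < θ) (hθ1 : θ ≤ 1) :
    ∃ r0 : ℕ, 2 ≤ r0 ∧ ∀ r : ℕ, r0 ≤ r → ∃ C : ℝ, 0 < C ∧ ∀ᶠ X : ℕ in atTop, ∀ H : ℕ,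
      (X : ℝ) ^ θ ≤ H → 2 * H ≤ X →
      ∀ A : Set ℕ, (∀ m ∈ A, RoughQuadruple r m) → ∀ ε : ℝ, 0 < ε →
      (∀ J : ℕ → ℕ, (∀ m ∈ Ioc X (X + H), Jumps (R A m) ε (Real.log X ^ 4) H (J m)) →
        ∑ m ∈ Ioc X (X + H), (J m : ℝ) ≤ C / ε ^ 2 * H) ∧
      (∀ (s : ℕ) (T : ℕ → ℝ), Real.log X ^ 4 ≤ T 0 → (∀ i < s, T i ≤ T (i + 1)) → T s ≤ H →
        ∑ i ∈ range s, ((unstable A X H ε (T i) (T (i + 1))).card : ℝ) ≤ C / ε ^ 2 * H ∧
        ∀ δ : ℝ, 0 < δ → (((range s).filter fun i =>
          δ * H < ((unstable A X H ε (T i) (T (i + 1))).card : ℝ)).card : ℝ) ≤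
            C / (δ * ε ^ 2)) := by
  classical
  obtain ⟨r0, hr0, hmain⟩ := Pool.Agent.J6H52.JumpT.main_tuple (k := 4) (by norm_num)
    ![0, 2, 6, 8] (by
      intro i j hij
      fin_cases i <;> fin_cases j <;> simp_all)
    (fun p hp => adm p hp) θ hθ hθ1
  refine ⟨r0, hr0, fun r hr => ?_⟩
  obtain ⟨C, hC, h1⟩ := hmain r hr
  refine ⟨C, hC, ?_⟩
  filter_upwards [h1, eventually_ge_atTop 1] with X h3 hX1
  intro H b4 b3 A hA ε hε
  have hB := h3 H b4 b3 A fun m hm i p hp hd => hA m hm p hp (by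
    fin_cases i
    · exact Or.inl (by simpa using hd)
    · exact Or.inr (Or.inl hd)
    · exact Or.inr (Or.inr (Or.inl hd))
    · exact Or.inr (Or.inr (Or.inr hd)))
  have hCe : 0 ≤ C / ε ^ 2 := by positivity
  refine ⟨fun J hJ => hB ε hε J hJ, fun s T hT0 hT hTs => ?_⟩
  have h6 : ∑ i ∈ range s, ((unstable A X H ε (T i) (T (i + 1))).card : ℝ) ≤ C / ε ^ 2 * H :=
    hB.osc hε s T hT0 hT hTs
  refine ⟨h6, fun δ hδ => ?_⟩
  have hpos : (0 : ℝ) < H := by
    have hX : (1 : ℝ) ≤ X := by exact_mod_cast hX1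
    have : (0 : ℝ) < (X : ℝ) ^ θ := by positivity
    linarith
  have h8 : (((range s).filter fun i =>
      δ * H < ((unstable A X H ε (T i) (T (i + 1))).card : ℝ)).card : ℝ) * (δ * H) ≤
      C / ε ^ 2 * H := by
    refine le_trans ?_ h6
    rw [← nsmul_eq_mul, ← sum_const]
    refine le_trans (sum_le_sum fun i hi => (mem_filter.1 hi).2.le) ?_
    exact sum_le_sum_of_subset_of_nonneg (filter_subset _ _) fun _ _ _ => Nat.cast_nonneg _
  rw [le_div_iff₀ (by positivity)]
  have h9 : (((range s).filter fun i =>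
      δ * H < ((unstable A X H ε (T i) (T (i + 1))).card : ℝ)).card : ℝ) * (δ * H) * ε ^ 2 ≤
      C / ε ^ 2 * H * ε ^ 2 := by gcongr
  have h10 : C / ε ^ 2 * (H : ℝ) * ε ^ 2 = C * H := by field_simp
  rw [h10] at h9
  nlinarith [h9, hpos]

end Pool.Agent.Results.MP_fc51f7_nt.JumpInequality
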