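import Pool.Agent.J6H38.SL.Law

set_option autoImplicit false

/-!
# Five consecutive odd integers, four of them almost prime: the Poisson laws

A set `{N, N + 2, ..., N + 8}` of five consecutive odd integers with `N > 3` contains four primes if and only if
`N`, `N + 2`, `N + 6`, `N + 8` are prime, and then `N = 5` or `N = 30 m + 11`. For the `m` for which these four
numbers (with `N = q m + a`) have no prime factor `≤ s = X ^ (1 / r)` we prove the asymptotic number in all
short intervals, the law of the spacings, the law of the numbers in the windows around ALL points, and the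
same after the `m` for which one given of the four numbers is prime.
-/

namespace Pool.Agent.Results.MP_fc51f7_nt.SpacingLaw

open Finset Filter

/-- For `N = q m + a`: none of `N`, `N + 2`, `N + 6`, `N + 8` has a prime factor `≤ s`. -/
def Good (q a s m : ℕ) : Prop :=
  ∀ l : ℕ, l.Prime → l ≤ s → ∀ h ∈ ({0, 2, 6, 8} : Finset ℕ), ¬ l ∣ q * m + a + h

/-- The product of `1 - 4 / p` over the primes `p ≤ s` which do not divide `q`. -/
noncomputable def V (q s : ℕ) : ℝ :=
  ∏ p ∈ (Finset.range (s + 1)).filter Nat.Prime, (1 - (if p ∣ q then 0 else 4 : ℕ) / (p : ℝ))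

/-- The same product, every factor divided by `1 - 1 / p`. -/
noncomputable def W (q s : ℕ) : ℝ :=
  ∏ p ∈ (Finset.range (s + 1)).filter Nat.Prime,
    (1 - (if p ∣ q then 0 else 4 : ℕ) / (p : ℝ)) / (1 - 1 / (p : ℝ))

open Classical in
/-- The number of the good `m` in the window `(x, x + T]`. -/
noncomputable def Win (q a s T x : ℕ) : ℕ := ((Ioc x (x + T)).filter (fun m => Good q a s m)).card

open Classical in
/-- The number of the good `m` in `(u, u + Y]` for which fewer than `k` of the `T` integers before `m` are good,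
that is, for which the distance from `m` to the `k`-th preceding good integer is larger than `T`. -/
noncomputable def D (q a s k T u Y : ℕ) : ℕ :=
  ((Ioc u (u + Y)).filter (fun m => Good q a s m ∧
    ((Ico (m - T) m).filter (fun m' => Good q a s m')).card < k)).card

open Classical in
/-- The good `m` in `(u, u + Y]` for which `q m + a + b` is PRIME. -/
noncomputable def P (q a b s u Y : ℕ) : Finset ℕ :=
  (Ioc u (u + Y)).filter (fun m => (q * m + a + b).Prime ∧ Good q a s m)

/-- The Poisson distribution with mean `x`: the probability of `j`. -/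
noncomputable def Po (x : ℝ) (j : ℕ) : ℝ := Real.exp (-x) * x ^ j / j.factorial

lemma adm (p : ℕ) (hp : p.Prime) : ∃ m : ℕ, ∀ h ∈ ({0, 2, 6, 8} : Finset ℕ), ¬ p ∣ m + h := by
  by_cases h3 : p ≤ 13
  · refine ⟨101, ?_⟩
    have := hp.two_le
    interval_cases p <;> first | decide | exact absurd hp (by norm_num)
  · refine ⟨1, fun h hh hd => ?_⟩
    simp only [Finset.mem_insert, Finset.mem_singleton] at hh
    have := Nat.le_of_dvd (by omega) hd
    omega

lemma card4 : ({0, 2, 6, 8} : Finset ℕ).card = 4 := by decide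

lemma dif {q : ℕ} (hq : 30 ∣ q) : ∀ h ∈ ({0, 2, 6, 8} : Finset ℕ), ∀ h' ∈ ({0, 2, 6, 8} : Finset ℕ),
    h' < h → ¬ q ∣ h - h' := by
  intro h hh h' hh' hlt hd
  have h1 : 30 ∣ h - h' := hq.trans hd
  have h2 := Nat.le_of_dvd (by omega) h1
  simp only [Finset.mem_insert, Finset.mem_singleton] at hh hh'
  omega

lemma nu4 {q p : ℕ} (hp : p.Prime) (hq : 30 ∣ q) :
    Pool.Agent.R490.Tq.nu {0, 2, 6, 8} q p = if p ∣ q then 0 else 4 := by
  unfold Pool.Agent.R490.Tq.nu
  split_ifs with h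
  · rfl
  · have h30 : ¬ p ∣ 30 := fun hd => h (hd.trans hq)
    by_cases h13 : 9 ≤ p
    · rw [Finset.card_image_of_injOn, card4]
      intro x hx y hy hxy
      have hxy' : x % p = y % p := hxy
      simp only [Finset.coe_insert, Finset.coe_singleton, Set.mem_insert_iff, Set.mem_singleton_iff] at hx hy
      rwa [Nat.mod_eq_of_lt (by omega), Nat.mod_eq_of_lt (by omega)] at hxy'
    · have h13' : p < 9 := by omega
      have := hp.two_le
      interval_cases p
      · exact absurd (by norm_num) h30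
      · exact absurd (by norm_num) h30
      · exact absurd hp (by norm_num)
      · exact absurd (by norm_num) h30
      · exact absurd hp (by norm_num)
      · decide
      · exact absurd hp (by norm_num)

lemma good_eq (q a s : ℕ) : (fun m => Good q a s m) = Pool.Agent.R490.Tq.Ro {0, 2, 6, 8} q a s := rfl

lemma V_eq {q s : ℕ} (hq : 30 ∣ q) : Pool.Agent.R490.Tq.V {0, 2, 6, 8} q s = V q s := by
  unfold Pool.Agent.R490.Tq.V V
  apply Finset.prod_congr rfl
  intro p hp
  rw [nu4 (mem_filter.1 hp).2 hq]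

lemma V_eq' {q a s : ℕ} (hq : 30 ∣ q) (hco : ∀ h ∈ ({0, 2, 6, 8} : Finset ℕ), Nat.Coprime q (a + h)) :
    Pool.Agent.R490.LZ.De (Pool.Agent.R490.Tq.fz q a {0, 2, 6, 8}) s = V q s := by
  rw [Pool.Agent.R490.Tq.fz_De _ _ _ _ hco, V_eq hq]

lemma W_eq {q a s : ℕ} (hq : 30 ∣ q) (hco : ∀ h ∈ ({0, 2, 6, 8} : Finset ℕ), Nat.Coprime q (a + h)) :
    Pool.Agent.R490.LZ.Wr (Pool.Agent.R490.Tq.fz q a {0, 2, 6, 8}) s = W q s := by
  rw [Pool.Agent.R490.Tq.fz_Wr _ _ _ _ hco]
  unfold Pool.Agent.R490.Tq.W W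
  apply Finset.prod_congr rfl
  intro p hp
  rw [nu4 (mem_filter.1 hp).2 hq]

lemma good_iff (q a s m : ℕ) :
    Good q a s m ↔ Pool.Agent.R490.LZ.Ro (Pool.Agent.R490.Tq.fz q a {0, 2, 6, 8}) s m := by
  rw [Pool.Agent.R490.Tq.ro_iff]
  exact Iff.rfl

lemma W_pos {q : ℕ} (h30 : 30 ∣ q) (s : ℕ) : 0 < W q s := by
  unfold W
  apply Finset.prod_pos
  intro p hp
  have hpp : p.Prime := (mem_filter.1 hp).2
  have hp2 : (2 : ℝ) ≤ p := by exact_mod_cast hpp.two_le
  apply div_pos
  · split_ifs with hd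
    · norm_num
    · have h30' : ¬ p ∣ 30 := fun h => hd (h.trans h30)
      have hp5 : 5 < p := by
        by_contra hcon
        have h5 : p ≤ 5 := by omega
        have := hpp.two_le
        interval_cases p
        · exact h30' (by norm_num)
        · exact h30' (by norm_num)
        · exact absurd hpp (by norm_num)
        · exact h30' (by norm_num)
      have hp5' : (5 : ℝ) < p := by exact_mod_cast hp5
      rw [sub_pos, div_lt_one (by linarith)]
      push_cast
      linarith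
  · have h1 : (1 : ℝ) / p ≤ 1 / 2 := one_div_le_one_div_of_le (by norm_num) hp2
    linarith

open Classical in
/-- **The Poisson laws for five consecutive odd integers four of which are almost prime.** -/
theorem result :
    -- (1) all moduli `q ≤ X ^ A`, all intervals of length at least `X ^ θ`
    (∀ (A : ℕ) (θ : ℝ), 0 < θ → ∀ (k0 : ℕ) (x0 ε : ℝ), 0 < ε →
      ∃ r0 : ℕ, 2 ≤ r0 ∧ ∀ r : ℕ, r0 ≤ r → ∀ᶠ X : ℕ in atTop, ∀ s : ℕ, s = ⌊(X : ℝ) ^ (1 / (r : ℝ))⌋₊ →
        ∀ q a : ℕ, 1 ≤ q → 30 ∣ q → q ≤ X ^ A → a ≤ X ^ A →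
        (∀ h ∈ ({0, 2, 6, 8} : Finset ℕ), Nat.Coprime q (a + h)) →
        ∀ u Y : ℕ, (X : ℝ) ^ θ ≤ Y →
          -- the spacings (for `k = 1`, `T = 0`: the asymptotic number)
          (∀ k T : ℕ, (k ≤ k0 ∨ T * V q s ≤ x0) →
            |(D q a s k T u Y : ℝ) - Y * V q s * ∑ j ∈ range k, Po (T * V q s) j| ≤ ε * (Y * V q s)) ∧
          -- the windows at all points
          ∀ T : ℕ, T * V q s ≤ x0 → ∀ J : Finset ℕ,
            |(((Ioc u (u + Y)).filter (fun x => Win q a s T x ∈ J)).card : ℝ) -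
              Y * ∑ j ∈ J, Po (T * V q s) j| ≤ ε * Y) ∧
    -- (2) one of the four numbers is prime
    (∀ q : ℕ, Squarefree q → 30 ∣ q → ∀ δ : ℝ, 0 < δ → δ ≤ 1 → ∀ x0 ε : ℝ, 0 < ε → ε ≤ 1 →
      ∃ r0 : ℕ, 2 ≤ r0 ∧ ∀ r : ℕ, r0 ≤ r → ∀ᶠ X : ℕ in atTop, ∀ s : ℕ, s = ⌊(X : ℝ) ^ (1 / (r : ℝ))⌋₊ →
        0 < W q s ∧
        ∀ a : ℕ, a ≤ q → (∀ h ∈ ({0, 2, 6, 8} : Finset ℕ), Nat.Coprime q (a + h)) →
        ∀ b ∈ ({0, 2, 6, 8} : Finset ℕ), ∀ u Y : ℕ, δ * X ≤ Y → u + Y ≤ X →
          |((P q a b s u Y).card : ℝ) * Real.log X - Y * W q s| ≤ ε * (Y * W q s) ∧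
          ∀ T : ℕ, T * V q s ≤ x0 → ∀ J : Finset ℕ,
            |(((P q a b s u Y).filter (fun m => Win q a s T m ∈ J)).card : ℝ) -
              (P q a b s u Y).card * ∑ j ∈ J, Po (T * V q s) j| ≤ ε * (P q a b s u Y).card) := by
  refine ⟨?_, ?_⟩
  · intro A θ hθ k0 x0 ε hε
    obtain ⟨r1, h1⟩ := Pool.Agent.R490.Tq.tgap 4 (A + 1) (by norm_num) θ hθ k0 x0 ε hε
    obtain ⟨r2, hr2, h2⟩ := Pool.Agent.J6H38.SL.windowT 4 (A + 1) (by norm_num) θ hθ x0 ε hε
    refine ⟨max r1 r2, hr2.trans (le_max_right _ _), fun r hr => ?_⟩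
    filter_upwards [h1 r ((le_max_left _ _).trans hr), h2 r ((le_max_right _ _).trans hr),
      eventually_ge_atTop 8] with X hX1 hX2 hX8
    intro s hs q a hq1 hq hqX haX hco u Y hY
    have hpow : X ^ A ≤ X ^ (A + 1) := Nat.pow_le_pow_right (by omega) (by omega)
    have hH : ∀ h ∈ ({0, 2, 6, 8} : Finset ℕ), h ≤ X ^ (A + 1) := by
      intro h hh
      simp only [Finset.mem_insert, Finset.mem_singleton] at hh
      have : X ^ 1 ≤ X ^ (A + 1) := Nat.pow_le_pow_right (by omega) (by omega)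
      rw [pow_one] at this
      omega
    refine ⟨?_, ?_⟩
    · intro k T hT
      have h3 := hX1 s hs {0, 2, 6, 8} card4 hH adm q a hq1 (hqX.trans hpow) (haX.trans hpow) hco
        (dif hq) u Y hY k T (by rw [V_eq hq]; exact hT)
      rw [V_eq hq] at h3
      exact h3
    · intro T hT J
      have h3 := hX2 s hs {0, 2, 6, 8} card4 hH adm q a hq1 (hqX.trans hpow) (haX.trans hpow) hco
        (dif hq) u Y hY T (by rw [V_eq hq]; exact hT) J
      rw [V_eq hq] at h3
      exact h3
  · intro q hq h30 δ hδ hδ1 x0 ε hε hε1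
    have hq1 : 1 ≤ q := Nat.one_le_iff_ne_zero.2 hq.ne_zero
    obtain ⟨r0, hr0, h0⟩ := Pool.Agent.R490.LZ.primeL q 4 2 hq (by norm_num) 1 1 δ one_pos
      one_pos hδ hδ1 x0 ε hε hε1
    refine ⟨r0, hr0, fun r hr => ?_⟩
    have hb1 : ∀ᶠ X : ℕ in atTop, ((q + 8 : ℕ) : ℝ) ≤ (X : ℝ) ^ ((1 : ℝ) / 4) :=
      ((tendsto_rpow_atTop (by norm_num)).comp tendsto_natCast_atTop_atTop).eventually_ge_atTop _
    filter_upwards [h0 r hr, eventually_ge_atTop (q + 8), hb1] with X hX hXq hqb
    intro s hs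
    refine ⟨W_pos h30 s, fun a haq hco b hb u Y hY huY => ?_⟩
    have hb8 : b ≤ 8 := by
      simp only [Finset.mem_insert, Finset.mem_singleton] at hb
      omega
    have hn2 : X ≤ X ^ 2 := Nat.le_self_pow (by norm_num) X
    have hsq : q + (q + 8) ≤ X ^ 2 := by nlinarith
    have h1 := hX (Pool.Agent.R490.Tq.fz q a {0, 2, 6, 8}) (a + b)
      (by rw [Pool.Agent.R490.Tq.fz_card, card4])
      (Finset.mem_image.2 ⟨b, hb, rfl⟩)
      (by
        refine le_trans ?_ hqb
        exact_mod_cast (by omega : a + b ≤ q + 8))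
      (fun p _ hpq l hl => by
        obtain ⟨h, hh, rfl⟩ := Finset.mem_image.1 hl
        have h3 : (p : ℤ) ∣ (q : ℤ) := by exact_mod_cast hpq
        exact h3)
      (Pool.Agent.R490.Tq.fz_good q a _ _ hq1 (by omega)
        (fun h hh => by
          simp only [Finset.mem_insert, Finset.mem_singleton] at hh
          omega) hco adm)
      (Pool.Agent.R490.Tq.fz_noT q a _ hq1 (dif h30) _) s hs
    rw [W_eq h30 hco, V_eq' h30 hco] at h1
    have h2 := h1.2 X (by rw [Real.rpow_one]) u Y hY huY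
    have eP : Pool.Agent.R490.LZ.Pr q (a + b) (Pool.Agent.R490.Tq.fz q a {0, 2, 6, 8}) s u Y =
        P q a b s u Y := by
      unfold Pool.Agent.R490.LZ.Pr P
      apply Finset.filter_congr
      intro m _
      rw [← good_iff, ← add_assoc]
    have eN : ∀ T m, Pool.Agent.R490.LZ.Nx (Pool.Agent.R490.Tq.fz q a {0, 2, 6, 8}) s T m = Win q a s T m := by
      intro T m
      unfold Pool.Agent.R490.LZ.Nx Win
      congr 1
      apply Finset.filter_congr
      intro m' _
      exact (good_iff q a s m').symm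
    rw [eP] at h2
    simp only [eN] at h2
    exact h2

end Pool.Agent.Results.MP_fc51f7_nt.SpacingLaw
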